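import Pool.Agent.PFE.StmtsE2b
import Pool.Agent.Helper30_PFD.UNM
import Pool.Agent.Helper49_PFD.UNG

/-! Squad PFE, row K1U: the relative trace of `1` in degree `1` is a unit. -/

set_option autoImplicit false

open scoped BigOperators

noncomputable section

namespace Pool.Agent.PFE.H20

open Pool.Agent.PFD
open Pool.Agent.PFD.D2
open Pool.Agent.PFD.D2b
open Pool.Agent.PFD.D4

section lem

variable {R S X Ω W : Type} [CommRing R] [Ring S] [Algebra R S] [Group X] [Fintype X]
  [DecidableEq X] [Fintype Ω] [CommGroup W] [Fintype W] [MulAction (W × W) Ω] {G : GS R S X}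

/-- the part of degree `x` of the relative trace of `1` -/
def Cx (E : WS Ω W G) (x : X) : S := ∑ o, if E.deg o = x then E.f.b o * E.f.b' o else 0

omit [DecidableEq X] in
theorem lam_zero (E : WS Ω W G) {x : X} {a : S} (ha : G.c x a = a) (o o' : Ω)
    (h : (E.deg o')⁻¹ * (x * E.deg o) ≠ 1) : E.f.lam (E.f.b' o' * (a * E.f.b o)) = 0 := by
  have h1 := G.cm x (E.deg o) a (E.f.b o)
  rw [ha, E.gb] at h1
  have h2 := G.cm (E.deg o')⁻¹ (x * E.deg o) (E.f.b' o') (a * E.f.b o)
  rw [h1, E.gb'] at h2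
  rw [← h2]
  exact E.t1 _ _ h

/-- Lemma A -/
theorem mul_Cx (E : WS Ω W G) {x : X} {a : S} (ha : G.c x a = a) (z : X) :
    a * Cx E z = Cx E (x * z) * a := by
  have h1 : a * Cx E z = ∑ o, ∑ o', if E.deg o = z then
      E.f.lam (E.f.b' o' * (a * E.f.b o)) • (E.f.b o' * E.f.b' o) else 0 := by
    unfold Cx
    rw [Finset.mul_sum]
    apply Finset.sum_congr rfl
    intro o _
    by_cases ho : E.deg o = z
    · simp only [ho, if_true]
      have h2 := E.f.h1 (a * E.f.b o)
      rw [← mul_assoc, ← h2, Finset.sum_mul]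
      apply Finset.sum_congr rfl
      intro o' _
      rw [h2, smul_mul_assoc]
    · simp [ho]
  have h3 : Cx E (x * z) * a = ∑ o', ∑ o, if E.deg o' = x * z then
      E.f.lam (E.f.b' o' * (a * E.f.b o)) • (E.f.b o' * E.f.b' o) else 0 := by
    unfold Cx
    rw [Finset.sum_mul]
    apply Finset.sum_congr rfl
    intro o' _
    by_cases ho : E.deg o' = x * z
    · simp only [ho, if_true]
      have h2 := E.f.h2 (E.f.b' o' * a)
      rw [mul_assoc, ← h2, Finset.mul_sum]
      apply Finset.sum_congr rfl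
      intro o _
      rw [mul_smul_comm, mul_assoc (E.f.b' o')]
    · simp [ho]
  rw [h1, h3, Finset.sum_comm]
  apply Finset.sum_congr rfl
  intro o' _
  apply Finset.sum_congr rfl
  intro o _
  by_cases ho : E.deg o = z
  · by_cases ho' : E.deg o' = x * z
    · rw [if_pos ho, if_pos ho']
    · rw [if_pos ho, if_neg ho', lam_zero E ha o o', zero_smul]
      intro h
      apply ho'
      rw [ho] at h
      exact inv_mul_eq_one.1 h
  · by_cases ho' : E.deg o' = x * z
    · rw [if_neg ho, if_pos ho', lam_zero E ha o o', zero_smul]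
      intro h
      apply ho
      rw [ho'] at h
      exact (mul_left_cancel (inv_mul_eq_one.1 h)).symm
    · rw [if_neg ho, if_neg ho']

theorem Cx_deg (E : WS Ω W G) (x : X) : G.c 1 (Cx E x) = Cx E x := by
  unfold Cx
  rw [map_sum]
  apply Finset.sum_congr rfl
  intro o _
  by_cases ho : E.deg o = x
  · rw [if_pos ho]
    have h2 := G.cm (E.deg o) (E.deg o)⁻¹ (E.f.b o) (E.f.b' o)
    rw [E.gb, E.gb', mul_inv_cancel] at h2
    exact h2
  · rw [if_neg ho, map_zero]

theorem Cx_comm (E : WS Ω W G) (x z : X) : Cx E x * Cx E z = Cx E z * Cx E x := by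
  have h := mul_Cx E (Cx_deg E x) z
  rwa [one_mul] at h

theorem sum_Cx (E : WS Ω W G) : ∑ x, Cx E x = (Fintype.card W : R) • E.rho := by
  unfold Cx
  rw [Finset.sum_comm, ← E.rr]
  apply Finset.sum_congr rfl
  intro o _
  rw [Finset.sum_ite_eq]
  simp

theorem card_K1 (E : WS Ω W G) (T : Finset Ω)
    (hT : ∀ (M : Type) [AddCommMonoid M] (H : Ω → M),
      ∑ o, H o = ∑ t ∈ T, ∑ w : W, H (((1, w) : W × W) • t)) :
    (Fintype.card W : R) • (∑ t ∈ T, if E.deg t = 1 then E.f.b t * E.f.b' t else 0) =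
      Cx E 1 := by
  unfold Cx
  rw [hT, Finset.smul_sum]
  apply Finset.sum_congr rfl
  intro t _
  have h : ∀ w : W, (if E.deg (((1, w) : W × W) • t) = 1 then
      E.f.b (((1, w) : W × W) • t) * E.f.b' (((1, w) : W × W) • t) else 0) =
      if E.deg t = 1 then E.f.b t * E.f.b' t else 0 := by
    intro w
    rw [E.dg]
    by_cases ht : E.deg t = 1
    · rw [if_pos ht, if_pos ht, E.bw, E.bw']
      show E.om 1 * E.f.b t * E.om w⁻¹ * (E.om w * E.f.b' t * E.om 1⁻¹) = _
      rw [inv_one, map_one, one_mul, mul_one]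
      calc E.f.b t * E.om w⁻¹ * (E.om w * E.f.b' t)
          = E.f.b t * (E.om w⁻¹ * E.om w) * E.f.b' t := by simp only [mul_assoc]
        _ = E.f.b t * E.f.b' t := by rw [← map_mul, inv_mul_cancel, map_one, mul_one]
    · rw [if_neg ht, if_neg ht]
  simp only [h]
  rw [Finset.sum_const, Finset.card_univ, Nat.cast_smul_eq_nsmul]

end lem

/-- row K1U -/
theorem k1u (hul : HulStmt) : K1uStmt := by
  intro R F S S0 X Ω W _ _ _ _ c _ _ _ _ _ _ _ _ _ _ _ _ _ G G0 E fs hc hg T hT hor
  obtain ⟨k1, hk1⟩ : ∃ k1, k1 = ∑ t ∈ T, if E.deg t = 1 then E.f.b t * E.f.b' t else 0 :=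
    ⟨_, rfl⟩
  rw [← hk1] at hor ⊢
  have hn0 : (Fintype.card W : R) ≠ 0 := Nat.cast_ne_zero.2 Fintype.card_ne_zero
  have hcan : ∀ a b : S, (Fintype.card W : R) • a = (Fintype.card W : R) • b → a = b := by
    intro a b h
    exact smul_right_injective S hn0 h
  have hC1 : (Fintype.card W : R) • k1 = Cx E 1 := by
    rw [hk1]
    exact card_K1 E T hT
  apply (D4.H30.unm D2.H49.ung) R F S0 S c fs
  rcases hor with h | hnil
  · exact h
  choose m m' hm1 hm2 hm3 using hul R F S S0 X c G G0 fs hc hg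
  have hN : ∀ x, (Fintype.card W : R) • (m x * k1 * m' x) = Cx E x := by
    intro x
    have h1 := mul_Cx E (hm1 x) 1
    rw [mul_one, ← hC1] at h1
    calc (Fintype.card W : R) • (m x * k1 * m' x)
        = m x * ((Fintype.card W : R) • k1) * m' x := by
          rw [mul_smul_comm, smul_mul_assoc]
      _ = Cx E x * (m x * m' x) := by rw [h1, mul_assoc]
      _ = Cx E x := by rw [hm2, mul_one]
  have hsum : ∑ x, m x * k1 * m' x = E.rho := by
    apply hcan
    rw [Finset.smul_sum, ← sum_Cx]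
    exact Finset.sum_congr rfl fun x _ => hN x
  have hcomm : ∀ x z, Commute (m x * k1 * m' x) (m z * k1 * m' z) := by
    intro x z
    apply hcan
    apply hcan
    have h1 : ∀ a b : S, (Fintype.card W : R) • (Fintype.card W : R) • (a * b) =
        ((Fintype.card W : R) • a) * ((Fintype.card W : R) • b) := by
      intro a b
      rw [smul_mul_smul_comm, smul_smul]
    rw [h1, h1, hN, hN, Cx_comm]
  have hnx : ∀ x, IsNilpotent (fs.q (m x * k1 * m' x)) := by
    intro x
    obtain ⟨k, hk⟩ := hnil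
    refine ⟨k, ?_⟩
    have h1 : ∀ j : ℕ, (fs.q (m x * k1 * m' x)) ^ (j + 1) =
        fs.q (m x) * (fs.q k1) ^ (j + 1) * fs.q (m' x) := by
      intro j
      induction j with
      | zero => rw [zero_add, pow_one, pow_one, map_mul, map_mul]
      | succ j ih =>
        rw [pow_succ, ih, map_mul, map_mul]
        calc fs.q (m x) * (fs.q k1) ^ (j + 1) * fs.q (m' x) *
              (fs.q (m x) * fs.q k1 * fs.q (m' x))
            = fs.q (m x) * (fs.q k1) ^ (j + 1) * (fs.q (m' x) * fs.q (m x)) * fs.q k1 *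
              fs.q (m' x) := by simp only [mul_assoc]
          _ = fs.q (m x) * (fs.q k1) ^ (j + 1 + 1) * fs.q (m' x) := by
            rw [← map_mul, hm3, map_one, mul_one, pow_succ (fs.q k1) (j + 1), ← mul_assoc]
    rcases k with _ | k
    · rw [pow_zero] at hk ⊢
      exact hk
    · rw [h1, hk, mul_zero, zero_mul]
  have hrho : IsNilpotent (fs.q E.rho) := by
    rw [← hsum, map_sum]
    exact Commute.isNilpotent_sum (fun x _ => hnx x) fun x z _ _ => (hcomm x z).map fs.q
  have hu : IsUnit (fs.q E.rho) := E.ru.map fs.q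
  have h10 : (1 : S0) = 0 := by
    obtain ⟨k, hk⟩ := hrho
    have h2 := hu.pow k
    rw [hk] at h2
    obtain ⟨u, hu2⟩ := h2
    calc (1 : S0) = u * (↑u⁻¹ : S0) := by rw [Units.mul_inv]
      _ = 0 := by rw [hu2, zero_mul]
  have hss : Subsingleton S0 := subsingleton_of_zero_eq_one h10.symm
  exact isUnit_of_subsingleton _

end Pool.Agent.PFE.H20
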