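import Pool.Agent.PFE.StmtsE2
import Pool.Agent.Helper13_PFD.EQF

/-! Squad PFE, row KEF: families which are equivariant (and twisted) modulo `p` lift. -/

set_option autoImplicit false

namespace Pool.Agent.PFE.H20

open MulOpposite
open Pool.Agent.PFC.B1 (BiM)
open Pool.Agent.PFD.D2b (wrp FPl)

theorem kef (hY : YfpStmt) (hK : KexStmt) : KefStmt := by
  intro R Γ W N X Ω Ω' H I _ _ _ _ _ _ _ _ _ _ _ _ _ _ l G χ B Fr π deg p m hl hχ hu hdeg hm
  have hF : FPl p ((wrp G.om B).comp π) := by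
    intro S n hn
    obtain ⟨m0, h1, h2⟩ := hY R Γ W N X Ω Ω' l G χ B Fr p (S.map π) n (by
      rintro _ ⟨s, hs, rfl⟩
      exact hn s hs)
    exact ⟨m0, fun s hs => h1 (π s) ⟨s, hs, rfl⟩, h2⟩
  obtain ⟨m', h1, h2⟩ := Pool.Agent.PFD.D2b.H13.eqf R H N I ((wrp G.om B).comp π) p hF m hm
  have hex : ∃ m' : I → N, (∀ (h : H) (i : I), m' (h • i) = wrp G.om B (π h) (m' i)) ∧
      ∀ i, ∃ x, m' i - m i = p • x := ⟨m', h1, h2⟩
  refine ⟨hex, fun htw => ?_⟩
  choose κ hκ1 hκ2 hκ3 using hK R Γ W N X Ω Ω' l G χ B Fr hl hχ hu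
  refine ⟨fun i => κ (deg i) (m' i), ?_, ?_, ?_⟩
  · intro h i
    show κ (deg (h • i)) (m' (h • i)) = _
    rw [hdeg, h1 h i]
    exact hκ1 (deg i) (π h) (m' i)
  · intro i
    exact hκ2 (deg i) (m' i)
  · intro i
    obtain ⟨x, hx⟩ := h2 i
    obtain ⟨y, hy⟩ := htw i
    have h3 : ∃ z, B.lm G.y (m' i) - χ (deg i) • B.rm (op G.y) (m' i) = p • z := by
      have e : m' i = m i + p • x := by rw [← hx]; abel
      refine ⟨y + (B.lm G.y x - χ (deg i) • B.rm (op G.y) x), ?_⟩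
      rw [e, map_add, map_add, map_smul, map_smul, smul_add, smul_add, ← hy, smul_sub,
        smul_comm (χ (deg i)) p]
      abel
    obtain ⟨z, hz⟩ := hκ3 (deg i) p (m' i) h3
    refine ⟨z + x, ?_⟩
    rw [smul_add, ← hz, ← hx]
    abel

end Pool.Agent.PFE.H20
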