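import Pool.Agent.PFE.StmtsE2

/-! Squad PFE, row LBY: balanced maps modulo `p` lift. -/

set_option autoImplicit false

namespace Pool.Agent.PFE.H20

open MulOpposite
open Pool.Agent.PFC.B1 (BiM)
open Pool.Agent.PFD.D2
open Pool.Agent.PFD.D2b (wrp FPl)

theorem xa_one {W Ω Ω' : Type} [CommGroup W] [MulAction (W × W) Ω] [MulAction (W × W) Ω']
    (l : ℕ) (ξ : Ω ⊕ (Ω' × Fin l)) : xa l (1 : W × W) ξ = ξ := by
  unfold xa
  rcases ξ with o | ⟨o, k⟩ <;> simp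

theorem xa_inv {W Ω Ω' : Type} [CommGroup W] [MulAction (W × W) Ω] [MulAction (W × W) Ω']
    (l : ℕ) (w w' : W × W) (h : w * w' = 1) (ξ : Ω ⊕ (Ω' × Fin l)) :
    xa l w (xa l w' ξ) = ξ := by
  unfold xa
  rcases ξ with o | ⟨o, k⟩
  · show Sum.inl (w • w' • o) = _
    rw [← mul_smul, h, one_smul]
  · show Sum.inr (w • w' • o, k) = _
    rw [← mul_smul, h, one_smul]

theorem lby (hL : LrcStmt) (hB : BbyStmt) (hM : MfyStmt) : LbyStmt := by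
  intro R Γ W M N X Ω Ω' Ω1 Ω1' _ _ _ _ _ _ _ _ _ _ _ _ _ _ _ _ _ _ l G χ BX BN FX FN p hl hχ hu
    β hβ
  obtain ⟨e1, e2, y1, y2, p1, p2, w1, w2, ad, sm⟩ :=
    hL R Γ W M X Ω Ω' l G χ BX LinearMap.id FX (by omega)
  obtain ⟨μ, m1, m2, m3⟩ := hM R Γ W M N X Ω Ω' Ω1 Ω1' l G χ BX BN FX FN p β hl hχ hu hβ
  let L : M →ₗ[R] (Ω ⊕ (Ω' × Fin l) → Γ) :=
    { toFun := FX.L
      map_add' := fun a b => funext fun ξ => (ad a b ξ).1
      map_smul' := fun r a => funext fun ξ => (sm r a ξ).1 }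
  let Rr : M →ₗ[R] (Ω ⊕ (Ω' × Fin l) → Γ) :=
    { toFun := FX.Rr
      map_add' := fun a b => funext fun ξ => (ad a b ξ).2
      map_smul' := fun r a => funext fun ξ => (sm r a ξ).2 }
  obtain ⟨β', b1, b2⟩ := hB R Γ W M N (Ω ⊕ (Ω' × Fin l)) l G BX BN (xa l) L Rr
    (pP G χ FX.deg) (pQ G χ FX.deg) μ
    (fun w => Function.bijective_iff_has_inverse.2 ⟨xa l w⁻¹, xa_inv l _ _ (inv_mul_cancel w),
      xa_inv l _ _ (mul_inv_cancel w)⟩) (xa_one l) y1 y2 p1 p2 w1 w2 m1 m2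
  refine ⟨β', b1, fun n n' => ?_⟩
  have hP : ∀ x : N, x ∈ LinearMap.range (LinearMap.lsmul R N p) ↔ ∃ y, x = p • y := by
    intro x
    rw [LinearMap.mem_range]
    constructor
    · rintro ⟨y, hy⟩
      exact ⟨y, hy.symm⟩
    · rintro ⟨y, hy⟩
      exact ⟨y, hy.symm⟩
  rw [← hP, b2 n n']
  have hn : β n n' = ∑ ξ, ∑ ξ', β (BX.lm (FX.L n ξ) (FX.gl ξ))
      (BX.rm (op (FX.Rr n' ξ')) (FX.gr ξ')) := by
    have h1 := e1 n
    have h2 := e2 n'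
    rw [LinearMap.id_apply] at h1 h2
    have h3 : β n = ∑ ξ, β (BX.lm (FX.L n ξ) (FX.gl ξ)) := by
      conv_lhs => rw [← h1]
      exact map_sum β _ _
    rw [h3, LinearMap.sum_apply]
    apply Finset.sum_congr rfl
    intro ξ _
    conv_lhs => rw [← h2]
    exact map_sum _ _ _
  rw [hn, ← Finset.sum_sub_distrib]
  refine Submodule.sum_mem _ fun ξ _ => ?_
  rw [← Finset.sum_sub_distrib]
  refine Submodule.sum_mem _ fun ξ' _ => ?_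
  rw [hP]
  obtain ⟨a, ha⟩ := m3 ξ ξ'
  obtain ⟨b, hb⟩ := hβ.1 (FX.L n ξ) (FX.gl ξ) (BX.rm (op (FX.Rr n' ξ')) (FX.gr ξ'))
  obtain ⟨c, hc⟩ := hβ.2.2 (op (FX.Rr n' ξ')) (FX.gl ξ) (FX.gr ξ')
  refine ⟨BN.lm (FX.L n ξ) (BN.rm (op (FX.Rr n' ξ')) a) - b - BN.lm (FX.L n ξ) c, ?_⟩
  rw [smul_sub, smul_sub, ← hb, ← map_smul, ← map_smul, ← map_smul, ← ha, ← hc, map_sub, map_sub,
    map_sub]
  show BN.lm (FX.L n ξ) (BN.rm (op (FX.Rr n' ξ')) (μ ξ ξ')) - _ = _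
  abel

end Pool.Agent.PFE.H20
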