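import Pool.Agent.PFE.StmtsE2
import Pool.Agent.PFD.StmtsD4
import Pool.Agent.Helper33_PFD.FRM
import Pool.Agent.Helper92_PFD.ULF
import Pool.Agent.Helper30_PFD.UNM
import Pool.Agent.Helper15_PFD.RFL
import Pool.Agent.Helper49_PFD.UNG
import Pool.Agent.Helper33_PFD.LCU
import Pool.Agent.Helper24_PFD.RWF
import Pool.Agent.Helper91_PFD.RTC

/-! Squad PFE, row LZE: the final lift (copy of `lrx` in `Helper81_PFD/KLT.lean`). -/

set_option autoImplicit false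

open scoped BigOperators

noncomputable section

namespace Pool.Agent.PFE.H20

open Pool.Agent.PFD
open Pool.Agent.PFD.D2
open Pool.Agent.PFD.D2b
open Pool.Agent.PFD.D4

theorem lze0 (rfl' : RflStmt) (unm : UnmStmt) (ulf : UlfStmt) (frm : FrmStmt) (gwf : GwfStmt)
    (ory : OryStmt) : LzeStmt := by
  intro R F Γ Γ0 W A A1 X N K Ω Ω' Ω1 Ω1' _ _ c _ _ _ _ _ _ _ _ _ _ _ _ _ _ _ _ _ _ _ _ _ _ _ _
    _ _ l G G0 f χ χ0 fl ly hl
  obtain ⟨D, hD, -⟩ := gwf R Γ W l G hl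
  obtain ⟨s, sx, sy⟩ := rfl' R F Γ Γ0 A A1 N c f ly.fb fl.j fl.pr ly.j ly.pr fl.x fl.y ly.pr_j
    ly.pr_l ly.pr_r ly.cj ly.cp fl.e1 fl.e2
  have hs1 : IsUnit (s.rt 1) := by
    apply unm R F A A1 c ly.fb
    have h := fl.unt 1 isUnit_one
    have h2 : ly.fb.q (s.rt 1) = ∑ k, fl.x k * fl.j 1 * fl.y k := by
      unfold RF.rt
      rw [map_sum]
      refine Finset.sum_congr rfl fun k _ => ?_
      rw [map_mul, map_mul, sx, sy, map_one, map_one]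
    rw [h2]
    exact h
  obtain ⟨u, uc, uu, hu⟩ := ulf R F Γ Γ0 A W (Fin l) c D f fl.j fl.pr fl.mu fl.pr_j fl.pr_l
    fl.mus fl.orth fl.mun (fun a _ => by
      obtain ⟨b, hb⟩ := f.surj a
      exact ⟨b, fun γ => mul_comm _ _, hb⟩)
  obtain ⟨tA, t1, t2⟩ := frm R F Γ Γ0 A A1 W (Fin l) N c D f ly.fb fl.j fl.pr ly.j ly.pr s u fl.mu
    ly.pr_l ly.pr_r ly.cp hs1 uc fl.mus fl.orth hu
  obtain ⟨ly', u1, u1', hfb, hj, uu1, ht⟩ := ory R F Γ Γ0 W A A1 X Ω1 Ω1' c l G f χ fl.j fl.pr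
    fl.mu ly tA hl fl.pr_j fl.pr_l fl.pr_r fl.mus fl.orth fl.mun t1 t2
  obtain ⟨s', sx', sy'⟩ := rfl' R F Γ Γ0 A A1 N c f ly'.fb fl.j fl.pr ly'.j ly'.pr fl.x fl.y
    ly'.pr_j ly'.pr_l ly'.pr_r ly'.cj ly'.cp fl.e1 fl.e2
  have key : ∀ w : Γ, ly'.fb.q (s'.rt (ly'.j w)) = ∑ k, fl.x k * fl.j (f.q w) * fl.y k := by
    intro w
    unfold RF.rt
    rw [map_sum]
    refine Finset.sum_congr rfl fun k _ => ?_
    rw [map_mul, map_mul, sx', sy', ly'.cj]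
  have uu2 : u1' * u1 = 1 := by rw [mul_comm, uu1]
  refine ⟨{ ly' with
    rf := s'
    tA := tA
    ts := t1
    u := u1
    u' := u1'
    uu := uu1
    ort := ht
    un1 := ?_
    unu := ?_ }⟩
  · apply unm R F A A1 c ly'.fb
    have h := key 1
    rw [map_one] at h
    rw [h]
    refine fl.unt _ ?_
    rw [map_one]; exact isUnit_one
  · apply unm R F A A1 c ly'.fb
    have h := key u1'
    rw [h]
    refine fl.unt _ ?_
    have h3 : f.q u1' * f.q u1 = 1 := by rw [← map_mul, uu2, map_one]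
    have h4 : f.q u1 * f.q u1' = 1 := by rw [← map_mul, uu1, map_one]
    exact ⟨⟨f.q u1', f.q u1, h3, h4⟩, rfl⟩

/-- row LZE -/
theorem lze (gwf : GwfStmt) (ory : OryStmt) : LzeStmt :=
  lze0 (D4.H15.rfl_ D2.H49.ung) (D4.H30.unm D2.H49.ung) (H92.ulf D2b.H33.lcu D2b.H24.rwf)
    (D4.H33.frm D4.H91.rtc) gwf ory

end Pool.Agent.PFE.H20
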