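import Pool.Agent.PFE.StmtsS
import Pool.Agent.Helper69_PFC.QSN
import Mathlib.Algebra.Central.Matrix

/-!
# Squad PFE, row TBU: the trivialising element
-/

open scoped BigOperators TensorProduct

noncomputable section

namespace Pool.Agent.PFE.H20

open Pool.Agent.PFC Pool.Agent.PFE Pool.Agent.PFE.S

section gen

variable {F V V1 A : Type} [Field F] [CommGroup V] [CommGroup V1] [Ring A] [Algebra F A]

theorem al_inv (α : V →* A) (v : V) : α v⁻¹ * α v = 1 := by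
  rw [← map_mul, inv_mul_cancel, map_one]

theorem al_inv' (α : V →* A) (v : V) : α v * α v⁻¹ = 1 := by
  rw [← map_mul, mul_inv_cancel, map_one]

theorem fx_iff (α : V →* A) (i : V1 →* V) (x : A) :
    x ∈ Fx (cj F α) i.range ↔ ∀ v : V1, α (i v) * x = x * α (i v) := by
  constructor
  · intro h v
    have h1 : α (i v) * (x * α (i v)⁻¹) = x := h (i v) ⟨v, rfl⟩
    calc α (i v) * x = α (i v) * (x * α (i v)⁻¹) * α (i v) := by
          rw [mul_assoc, mul_assoc, al_inv, mul_one]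
      _ = x * α (i v) := by rw [h1]
  · rintro h _ ⟨v, rfl⟩
    show α (i v) * (x * α (i v)⁻¹) = x
    rw [← mul_assoc, h, mul_assoc, al_inv', mul_one]

theorem hinv {α : V →* A} {i : V1 →* V} {τ : MulAut V1} {g : Aˣ}
    (h : ∀ v, α (i v) * g = g * α (i (τ v))) (v : V1) :
    α (i (τ v)) * ((g⁻¹ : Aˣ) : A) = ((g⁻¹ : Aˣ) : A) * α (i v) := by
  calc α (i (τ v)) * ((g⁻¹ : Aˣ) : A)
      = ((g⁻¹ : Aˣ) : A) * ((g : A) * α (i (τ v))) * ((g⁻¹ : Aˣ) : A) := by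
        rw [Units.inv_mul_cancel_left]
    _ = ((g⁻¹ : Aˣ) : A) * (α (i v) * (g : A)) * ((g⁻¹ : Aˣ) : A) := by rw [h]
    _ = ((g⁻¹ : Aˣ) : A) * α (i v) := by
        rw [mul_assoc, mul_assoc, Units.mul_inv, mul_one]

theorem hinv2 {α : V →* A} {i : V1 →* V} {τ : MulAut V1} {g : Aˣ}
    (h : ∀ v, α (i v) * g = g * α (i (τ v))) (v : V1) :
    α (i v) * ((g⁻¹ : Aˣ) : A) = ((g⁻¹ : Aˣ) : A) * α (i (τ⁻¹ v)) := by
  have h1 := hinv h (τ⁻¹ v)
  have h2 : τ (τ⁻¹ v) = v := by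
    rw [← MulAut.mul_apply, mul_inv_cancel, MulAut.one_apply]
  rwa [h2] at h1

theorem hpow {α : V →* A} {i : V1 →* V} {τ : MulAut V1} {g : A}
    (h : ∀ v, α (i v) * g = g * α (i (τ v))) (k : ℕ) :
    ∀ v, α (i v) * g ^ k = g ^ k * α (i ((τ ^ k) v)) := by
  induction k with
  | zero =>
    intro v
    rw [pow_zero, pow_zero, mul_one, one_mul, MulAut.one_apply]
  | succ k ih =>
    intro v
    rw [pow_succ, ← mul_assoc, ih, mul_assoc, h, pow_succ' τ, MulAut.mul_apply, mul_assoc]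

theorem conj_fx {α : V →* A} {i : V1 →* V} {τ : MulAut V1} {g : Aˣ}
    (h : ∀ v, α (i v) * g = g * α (i (τ v))) {x : A} (hx : x ∈ Fx (cj F α) i.range) :
    (g : A) * (x * ((g⁻¹ : Aˣ) : A)) ∈ Fx (cj F α) i.range := by
  rw [fx_iff] at hx ⊢
  intro v
  calc α (i v) * ((g : A) * (x * ((g⁻¹ : Aˣ) : A)))
      = (α (i v) * (g : A)) * (x * ((g⁻¹ : Aˣ) : A)) := by rw [mul_assoc]
    _ = (g : A) * ((α (i (τ v)) * x) * ((g⁻¹ : Aˣ) : A)) := by
        rw [h]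
        simp only [mul_assoc]
    _ = (g : A) * (x * (α (i (τ v)) * ((g⁻¹ : Aˣ) : A))) := by
        rw [hx]
        simp only [mul_assoc]
    _ = (g : A) * (x * ((g⁻¹ : Aˣ) : A)) * α (i v) := by
        rw [hinv h]
        simp only [mul_assoc]

theorem conj_tr [Fintype V1] {α : V →* A} {i : V1 →* V} {τ : MulAut V1} {g : Aˣ}
    (h : ∀ v, α (i v) * g = g * α (i (τ v))) (x : A) :
    (g : A) * ((∑ v : V1, cj F α (i v) x) * ((g⁻¹ : Aˣ) : A)) =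
      ∑ v : V1, cj F α (i v) ((g : A) * (x * ((g⁻¹ : Aˣ) : A))) := by
  rw [Finset.sum_mul, Finset.mul_sum, ← Equiv.sum_comp τ.toEquiv]
  refine Finset.sum_congr rfl fun v _ => ?_
  show (g : A) * (α (i (τ v)) * (x * α (i (τ v))⁻¹) * ((g⁻¹ : Aˣ) : A)) =
    α (i v) * ((g : A) * (x * ((g⁻¹ : Aˣ) : A)) * α (i v)⁻¹)
  have h1 : α (i (τ v))⁻¹ * ((g⁻¹ : Aˣ) : A) = ((g⁻¹ : Aˣ) : A) * α (i v)⁻¹ := by
    rw [← map_inv i, ← map_inv τ, hinv h, map_inv]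
  calc (g : A) * (α (i (τ v)) * (x * α (i (τ v))⁻¹) * ((g⁻¹ : Aˣ) : A))
      = ((g : A) * α (i (τ v))) * (x * (α (i (τ v))⁻¹ * ((g⁻¹ : Aˣ) : A))) := by
        simp only [mul_assoc]
    _ = (α (i v) * (g : A)) * (x * (((g⁻¹ : Aˣ) : A) * α (i v)⁻¹)) := by
        rw [h1, h]
    _ = _ := by simp only [mul_assoc]

theorem mul_fx {α : V →* A} {i : V1 →* V} {a b : A} (ha : a ∈ Fx (cj F α) i.range)
    (hb : b ∈ Fx (cj F α) i.range) : a * b ∈ Fx (cj F α) i.range := by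
  rw [fx_iff] at ha hb ⊢
  intro v
  rw [← mul_assoc, ha, mul_assoc, hb, mul_assoc]

theorem one_fx (α : V →* A) (i : V1 →* V) : (1 : A) ∈ Fx (cj F α) i.range := by
  rw [fx_iff]
  intro v
  rw [mul_one, one_mul]

/-- a central element of a matrix algebra is a scalar -/
theorem ctr_mat (n : ℕ) (f : A ≃ₐ[F] Matrix (Fin n) (Fin n) F) (z : A)
    (hz : ∀ a, z * a = a * z) : ∃ c : F, z = algebraMap F A c := by
  have h1 : f z ∈ Subalgebra.center F (Matrix (Fin n) (Fin n) F) := by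
    rw [Subalgebra.mem_center_iff]
    intro M
    have h2 := congrArg f (hz (f.symm M))
    rw [map_mul, map_mul, AlgEquiv.apply_symm_apply] at h2
    exact h2.symm
  obtain ⟨c, hc⟩ := (Algebra.IsCentral.mem_center_iff F).1 h1
  refine ⟨c, f.injective ?_⟩
  rw [AlgEquiv.commutes]
  exact hc

end gen

section main

variable {ℓ : ℕ} [Fact ℓ.Prime] {F V V1 : Type} [Field F] [CharP F ℓ] [CommGroup V]
  [Finite V] [CommGroup V1] [Fintype V1] {N B : IA F V} {i : V1 →* V}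
  {β : N.A →ₗ[F] B.A} {s : B.A →ₗ[F] N.A}

omit [Finite V] in
theorem be_one {Q : Subgroup V} (hB : ABr N B Q β s) : β 1 = 1 := by
  have h := hB.cov 1
  rwa [map_one N.ι, map_one B.ι] at h

theorem ex_hom (hP : PttStmt) (hQ : QkeStmt) (hV : IsPGroup ℓ V) (hc : Nat.card V1 = ℓ)
    (hi : Function.Injective i) (hB : ABr N B i.range β s) {τ : MulAut V1} {g : N.Aˣ}
    (h : ∀ v, N.ι (i v) * g = g * N.ι (i (τ v))) :
    ∃ e : B.A →ₐ[F] B.A, ∀ x ∈ Fx (cj F N.ι) i.range,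
      e (β x) = β ((g : N.A) * (x * ((g⁻¹ : N.Aˣ) : N.A))) := by
  obtain ⟨q1, q2, q3⟩ := hQ ℓ F V N.A B.A (cj F N.ι) (cj F B.ι) i.range β s hV hB.toBrS
  obtain ⟨p1, -, p3⟩ := hP ℓ F V V1 N.A (cj F N.ι) i hc hi
  obtain ⟨L, hL⟩ : ∃ L : B.A →ₗ[F] B.A, ∀ b,
      L b = β ((g : N.A) * (s b * ((g⁻¹ : N.Aˣ) : N.A))) :=
    ⟨β ∘ₗ (LinearMap.mulLeft F (g : N.A)) ∘ₗ (LinearMap.mulRight F ((g⁻¹ : N.Aˣ) : N.A)) ∘ₗ s,
      fun b => rfl⟩
  have key : ∀ x ∈ Fx (cj F N.ι) i.range,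
      L (β x) = β ((g : N.A) * (x * ((g⁻¹ : N.Aˣ) : N.A))) := by
    intro x hx
    have h1 : x - s (β x) ∈ Fx (cj F N.ι) i.range := Submodule.sub_mem _ hx (q1 _)
    obtain ⟨y, hy⟩ := p1 _ (q3 x hx)
    have h2 : (g : N.A) * ((x - s (β x)) * ((g⁻¹ : N.Aˣ) : N.A)) ∈ BK (cj F N.ι) i.range := by
      rw [hy, conj_tr h]
      exact p3 _
    have h3 := (q2 _ (conj_fx h h1)).2 h2
    rw [sub_mul, mul_sub, map_sub, sub_eq_zero] at h3
    rw [hL, h3]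
  refine ⟨AlgHom.ofLinearMap L ?_ ?_, fun x hx => key x hx⟩
  · have h1 := key 1 (one_fx N.ι i)
    rw [be_one hB, one_mul, Units.mul_inv, be_one hB] at h1
    exact h1
  · intro a b
    have ha : β (s a) = a := hB.bs a
    have hb : β (s b) = b := hB.bs b
    have h1 : L (a * b) = L (β (s a * s b)) := by
      rw [hB.mul _ (q1 a) _ (q1 b), ha, hb]
    rw [h1, key _ (mul_fx (q1 a) (q1 b))]
    have h2 : (g : N.A) * (s a * s b * ((g⁻¹ : N.Aˣ) : N.A)) =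
        ((g : N.A) * (s a * ((g⁻¹ : N.Aˣ) : N.A))) *
          ((g : N.A) * (s b * ((g⁻¹ : N.Aˣ) : N.A))) := by
      simp only [mul_assoc]
      rw [Units.inv_mul_cancel_left]
    rw [h2, hB.mul _ (conj_fx h (q1 a)) _ (conj_fx h (q1 b)), ← hL, ← hL]

theorem ex_equiv (hP : PttStmt) (hQ : QkeStmt) (hV : IsPGroup ℓ V) (hc : Nat.card V1 = ℓ)
    (hi : Function.Injective i) (hB : ABr N B i.range β s) {τ : MulAut V1} {g : N.Aˣ}
    (h : ∀ v, N.ι (i v) * g = g * N.ι (i (τ v))) :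
    ∃ e : B.A ≃ₐ[F] B.A, ∀ x ∈ Fx (cj F N.ι) i.range,
      e (β x) = β ((g : N.A) * (x * ((g⁻¹ : N.Aˣ) : N.A))) := by
  obtain ⟨q1, q2, q3⟩ := hQ ℓ F V N.A B.A (cj F N.ι) (cj F B.ι) i.range β s hV hB.toBrS
  obtain ⟨e, he⟩ := ex_hom hP hQ hV hc hi hB h
  obtain ⟨e', he'⟩ := ex_hom hP hQ hV hc hi hB (g := g⁻¹) (τ := τ⁻¹) (hinv2 h)
  rw [inv_inv] at he'
  refine ⟨AlgEquiv.ofAlgHom e e' ?_ ?_, fun x hx => he x hx⟩
  · apply AlgHom.ext
    intro b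
    show e (e' b) = b
    have h1 : b = β (s b) := (hB.bs b).symm
    have h2 := conj_fx (hinv2 h) (q1 b)
    rw [inv_inv] at h2
    calc e (e' b) = e (e' (β (s b))) := by rw [← h1]
      _ = b := by
        rw [he' _ (q1 b), he _ h2]
        simp only [mul_assoc]
        rw [Units.mul_inv, mul_one, Units.mul_inv_cancel_left, hB.bs]
  · apply AlgHom.ext
    intro b
    show e' (e b) = b
    have h1 : b = β (s b) := (hB.bs b).symm
    have h2 := conj_fx h (q1 b)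
    calc e' (e b) = e' (e (β (s b))) := by rw [← h1]
      _ = b := by
        rw [he _ (q1 b), he' _ h2]
        simp only [mul_assoc]
        rw [Units.inv_mul, mul_one, Units.inv_mul_cancel_left, hB.bs]

end main

theorem tbu : TbuStmt := by
  intro hT hP hQ ℓ _ F V V1 _ _ _ _ _ _ _ N B i β s τ m σ hV hc hi hM hB hm hτ hR hσ
  obtain ⟨hT1, -⟩ := hT
  obtain ⟨t1, t2, t3, t4, t5, t6, t7⟩ := hT1 F V V1 N.A N.ι i
  obtain ⟨q1, q2, q3⟩ := hQ ℓ F V N.A B.A (cj F N.ι) (cj F B.ι) i.range β s hV hB.toBrS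
  obtain ⟨p1, -, p3⟩ := hP ℓ F V V1 N.A (cj F N.ι) i hc hi
  obtain ⟨y, hy⟩ := hR
  obtain ⟨g, hg⟩ : ∃ g : N.Aˣ, g = y⁻¹ := ⟨_, rfl⟩
  have hg1 : ∀ v : V, N.ι v * g = g * N.ι (σ v) := by
    intro v
    rw [hg]
    calc N.ι v * ((y⁻¹ : N.Aˣ) : N.A)
        = ((y⁻¹ : N.Aˣ) : N.A) * ((y : N.A) * N.ι v) * ((y⁻¹ : N.Aˣ) : N.A) := by
          rw [Units.inv_mul_cancel_left]
      _ = ((y⁻¹ : N.Aˣ) : N.A) * (N.ι (σ v) * (y : N.A)) * ((y⁻¹ : N.Aˣ) : N.A) := by rw [hy]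
      _ = ((y⁻¹ : N.Aˣ) : N.A) * N.ι (σ v) := by
          rw [mul_assoc, mul_assoc, Units.mul_inv, mul_one]
  have hg2 : ∀ v : V1, N.ι (i v) * g = g * N.ι (i (τ v)) := by
    intro v
    rw [hg1, hσ]
  have hNF : ∀ x : N.A, x ∈ Nt F N.ι i 1 ↔ x ∈ Fx (cj F N.ι) i.range := by
    intro x
    rw [t1, fx_iff]
    exact Iff.rfl
  obtain ⟨e, he⟩ := ex_equiv hP hQ hV hc hi hB hg2
  obtain ⟨n, hn, ⟨f⟩⟩ := hM
  obtain ⟨w, hw⟩ := H69.qsn_inner n f e
  obtain ⟨u, hu⟩ : ∃ u : N.A, u = s ((w⁻¹ : B.Aˣ) : B.A) := ⟨_, rfl⟩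
  have huf : u ∈ Fx (cj F N.ι) i.range := by
    rw [hu]
    exact q1 _
  have hub : β u = ((w⁻¹ : B.Aˣ) : B.A) := by
    rw [hu, hB.bs]
  obtain ⟨t0, ht0⟩ : ∃ t0 : N.A, t0 = u * g := ⟨_, rfl⟩
  have ht0N : ∀ v : V1, N.ι (i v) * t0 = t0 * N.ι (i (τ v)) := by
    intro v
    rw [ht0, ← mul_assoc, (fx_iff N.ι i u).1 huf, mul_assoc, hg2, mul_assoc]
  -- (3) for `t0`
  have h3 : ∀ x ∈ Fx (cj F N.ι) i.range,
      (t0 * x - x * t0) * ((g⁻¹ : N.Aˣ) : N.A) ∈ Fx (cj F N.ι) i.range ∧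
      β ((t0 * x - x * t0) * ((g⁻¹ : N.Aˣ) : N.A)) = 0 := by
    intro x hx
    have h31 : (t0 * x - x * t0) * ((g⁻¹ : N.Aˣ) : N.A) =
        u * ((g : N.A) * (x * ((g⁻¹ : N.Aˣ) : N.A))) - x * u := by
      rw [ht0, sub_mul]
      congr 1
      · simp only [mul_assoc]
      · simp only [mul_assoc]
        rw [Units.mul_inv, mul_one]
    have h32 := conj_fx hg2 hx
    rw [h31]
    refine ⟨Submodule.sub_mem _ (mul_fx huf h32) (mul_fx hx huf), ?_⟩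
    rw [map_sub, hB.mul _ huf _ h32, hB.mul _ hx _ huf, ← he x hx, hub]
    have h33 : e (β x) = (w : B.A) * (β x * ((w⁻¹ : B.Aˣ) : B.A)) := by
      rw [← mul_assoc, hw, mul_assoc, Units.mul_inv, mul_one]
    rw [h33, Units.inv_mul_cancel_left, sub_self]
  -- (5) for `t0`
  have h5 : ∀ k : ℕ, t0 ^ k * ((g⁻¹ : N.Aˣ) : N.A) ^ k ∈ Fx (cj F N.ι) i.range ∧
      IsUnit (β (t0 ^ k * ((g⁻¹ : N.Aˣ) : N.A) ^ k)) := by
    intro k
    induction k with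
    | zero =>
      rw [pow_zero, pow_zero, one_mul, be_one hB]
      exact ⟨one_fx N.ι i, isUnit_one⟩
    | succ k ih =>
      have hgk : ∀ v : V1, N.ι (i v) * ((g ^ k : N.Aˣ) : N.A) =
          ((g ^ k : N.Aˣ) : N.A) * N.ι (i ((τ ^ k) v)) := by
        intro v
        rw [Units.val_pow_eq_pow_val]
        exact hpow hg2 k v
      obtain ⟨ek, hek⟩ := ex_hom hP hQ hV hc hi hB hgk
      have h51 := conj_fx hgk huf
      have h52 : t0 ^ (k + 1) * ((g⁻¹ : N.Aˣ) : N.A) ^ (k + 1) =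
          (t0 ^ k * ((g⁻¹ : N.Aˣ) : N.A) ^ k) *
            (((g ^ k : N.Aˣ) : N.A) * (u * (((g ^ k)⁻¹ : N.Aˣ) : N.A))) := by
        have h53 : ((g⁻¹ : N.Aˣ) : N.A) ^ k = (((g ^ k)⁻¹ : N.Aˣ) : N.A) := by
          rw [← Units.val_pow_eq_pow_val, inv_pow]
        have h54 : ((g⁻¹ : N.Aˣ) : N.A) ^ (k + 1) =
            ((g⁻¹ : N.Aˣ) : N.A) * (((g ^ k)⁻¹ : N.Aˣ) : N.A) := by
          rw [pow_succ', h53]
        rw [h54, h53, pow_succ]
        nth_rewrite 2 [ht0]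
        simp only [mul_assoc]
        rw [Units.mul_inv_cancel_left, Units.inv_mul_cancel_left]
      rw [h52]
      refine ⟨mul_fx ih.1 h51, ?_⟩
      rw [hB.mul _ ih.1 _ h51]
      refine ih.2.mul ?_
      rw [← hek u huf, hub]
      exact (Units.isUnit w⁻¹).map ek
  -- commutators are traces
  have h6 : ∀ x ∈ Fx (cj F N.ι) i.range, ∀ k : ℕ, ∃ z, t0 ^ k * x - x * t0 ^ k =
      Tr F N.ι i (τ ^ k) z := by
    intro x hx k
    induction k with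
    | zero =>
      refine ⟨0, ?_⟩
      rw [pow_zero, one_mul, mul_one, sub_self, map_zero]
    | succ k ih =>
      obtain ⟨z, hz⟩ := ih
      obtain ⟨h61, h62⟩ := h3 x hx
      obtain ⟨z', hz'⟩ := p1 _ ((q2 _ h61).1 h62)
      have h63 : t0 * x - x * t0 = Tr F N.ι i τ (z' * g) := by
        have h64 : t0 * x - x * t0 =
            (t0 * x - x * t0) * ((g⁻¹ : N.Aˣ) : N.A) * (g : N.A) := by
          rw [mul_assoc, Units.inv_mul, mul_one]
        rw [h64, hz', Finset.sum_mul]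
        show _ = (∑ v : V1, tj F N.ι i τ v) (z' * g)
        rw [LinearMap.sum_apply]
        refine Finset.sum_congr rfl fun v _ => ?_
        show N.ι (i v) * (z' * N.ι (i v)⁻¹) * (g : N.A) =
          N.ι (i v) * (z' * (g : N.A) * N.ι (i (τ v))⁻¹)
        have h65 : N.ι (i v)⁻¹ * (g : N.A) = (g : N.A) * N.ι (i (τ v))⁻¹ := by
          rw [← map_inv i, hg2, map_inv, map_inv]
        simp only [mul_assoc]
        rw [h65]
      refine ⟨t0 ^ k * (z' * g) + z * t0, ?_⟩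
      have hk : t0 ^ k ∈ Nt F N.ι i (τ ^ k) := (t1 _ _).2 (hpow ht0N k)
      have h1 : t0 ∈ Nt F N.ι i τ := (t1 _ _).2 ht0N
      rw [map_add, pow_succ' τ, ← t6 (τ ^ k) τ (t0 ^ k) (z' * g) hk, ← t7 (τ ^ k) τ z t0 h1,
        ← h63, ← hz, pow_succ]
      noncomm_ring
  -- the scalar
  have h7 : ∀ b : B.A, β (t0 ^ m) * b = b * β (t0 ^ m) := by
    intro b
    have hf := q1 b
    have htm : t0 ^ m ∈ Fx (cj F N.ι) i.range := by
      rw [fx_iff]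
      intro v
      have := hpow ht0N m v
      rwa [hτ, MulAut.one_apply] at this
    obtain ⟨z, hz⟩ := h6 (s b) hf m
    have h71 : t0 ^ m * s b - s b * t0 ^ m ∈ BK (cj F N.ι) i.range := by
      rw [hz, hτ]
      have h72 : Tr F N.ι i 1 z = ∑ v : V1, cj F N.ι (i v) z := by
        show (∑ v : V1, tj F N.ι i 1 v) z = _
        rw [LinearMap.sum_apply]
        rfl
      rw [h72]
      exact p3 z
    have h73 := (q2 _ (Submodule.sub_mem _ (mul_fx htm hf) (mul_fx hf htm))).2 h71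
    rw [map_sub, hB.mul _ htm _ hf, hB.mul _ hf _ htm, hB.bs, sub_eq_zero] at h73
    exact h73
  have h8 : IsUnit (β (t0 ^ m)) := by
    have hgm : ∀ v : V1, N.ι (i v) * (g : N.A) ^ m = (g : N.A) ^ m * N.ι (i v) := by
      intro v
      have := hpow hg2 m v
      rwa [hτ, MulAut.one_apply] at this
    have hgf : (g : N.A) ^ m ∈ Fx (cj F N.ι) i.range := (fx_iff _ _ _).2 hgm
    have hgf' : ((g⁻¹ : N.Aˣ) : N.A) ^ m ∈ Fx (cj F N.ι) i.range := by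
      rw [fx_iff]
      intro v
      have := hpow (hinv2 hg2) m v
      rwa [inv_pow, hτ, inv_one, MulAut.one_apply] at this
    have h81 : β ((g : N.A) ^ m) * β (((g⁻¹ : N.Aˣ) : N.A) ^ m) = 1 := by
      rw [← hB.mul _ hgf _ hgf', ← Units.val_pow_eq_pow_val, ← Units.val_pow_eq_pow_val, inv_pow,
        Units.mul_inv, be_one hB]
    have h82 : β (((g⁻¹ : N.Aˣ) : N.A) ^ m) * β ((g : N.A) ^ m) = 1 := by
      rw [← hB.mul _ hgf' _ hgf, ← Units.val_pow_eq_pow_val, ← Units.val_pow_eq_pow_val, inv_pow,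
        Units.inv_mul, be_one hB]
    have h83 : IsUnit (β ((g : N.A) ^ m)) := ⟨⟨_, _, h81, h82⟩, rfl⟩
    have h84 : t0 ^ m = (t0 ^ m * ((g⁻¹ : N.Aˣ) : N.A) ^ m) * (g : N.A) ^ m := by
      rw [mul_assoc, ← Units.val_pow_eq_pow_val, ← Units.val_pow_eq_pow_val, inv_pow,
        Units.inv_mul, mul_one]
    rw [h84, hB.mul _ (h5 m).1 _ hgf]
    exact (h5 m).2.mul h83
  obtain ⟨c, hcc⟩ := ctr_mat n f (β (t0 ^ m)) h7
  have hc0 : c ≠ 0 := by
    intro h0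
    rw [h0, map_zero] at hcc
    rw [hcc] at h8
    have h9 : (0 : B.A) = 1 := by
      obtain ⟨z, hz⟩ := h8.exists_right_inv
      rw [zero_mul] at hz
      exact hz
    have h10 : (0 : Matrix (Fin n) (Fin n) F) = 1 := by
      rw [← map_zero f, ← map_one f, h9]
    have h11 := congrArg (fun M : Matrix (Fin n) (Fin n) F => M ⟨0, hn⟩ ⟨0, hn⟩) h10
    simp at h11
  obtain ⟨r, hr⟩ := IsAlgClosed.exists_pow_nat_eq c⁻¹ hm
  have hr0 : r ≠ 0 := by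
    intro h0
    rw [h0, zero_pow hm.ne'] at hr
    exact inv_ne_zero hc0 hr.symm
  refine ⟨g, r • t0, hg1, ?_, ?_, ?_, ?_⟩
  · exact Submodule.smul_mem _ _ ((t1 _ _).2 ht0N)
  · intro x hx
    have h9 : (r • t0 * x - x * r • t0) * ((g⁻¹ : N.Aˣ) : N.A) =
        r • ((t0 * x - x * t0) * ((g⁻¹ : N.Aˣ) : N.A)) := by
      rw [smul_mul_assoc, mul_smul_comm, ← smul_sub, smul_mul_assoc]
    rw [h9, map_smul, (h3 x ((hNF x).1 hx)).2, smul_zero]
  · rw [smul_pow, map_smul, hr, hcc, Algebra.algebraMap_eq_smul_one, smul_smul,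
      inv_mul_cancel₀ hc0, one_smul]
  · intro k
    rw [smul_pow, smul_mul_assoc, map_smul]
    have h9 : IsUnit (r ^ k) := (isUnit_iff_ne_zero.2 hr0).pow k
    obtain ⟨a, ha⟩ := h9
    obtain ⟨b, hb⟩ := (h5 k).2
    rw [← ha, ← hb]
    exact (a • b).isUnit

end Pool.Agent.PFE.H20
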